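import Pool.Agent.Lib_helper54.LinUp.Emb

/-!
The general upper bound, and the choice of a sparse set of vertices in a linear 3-graph.
-/

namespace Pool.Agent.LinUp54

open Finset

theorem upper_general (s : ℕ) (F : Finset (Finset (Fin s))) (hF : ∀ e ∈ F, e.card = 3)
    (A : Finset (Fin s)) (Δ : ℕ)
    (hdeg : ∀ v, v ∉ A → (F.filter (fun e => v ∈ e ∧ Disjoint e A)).card ≤ Δ) :
    ∃ C : ℕ, ∀ n : ℕ, 1 ≤ n → ∃ N ≤ 2 ^ (C * n ^ (A.card + (2 * Δ + 1) ^ 2)),
      ∀ red : Finset (Fin N) → Prop,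
        (∃ φ : Fin s ↪ Fin N, ∀ e ∈ F, red (e.map φ)) ∨
          ∃ S : Finset (Fin N), S.card = n ∧ ∀ e ⊆ S, e.card = 3 → ¬ red e := by
  classical
  set I : Finset (Fin s) := univ \ A with hI
  set a := A.card with ha
  set D := max Δ 1 with hD
  set κ := (D + 1) * (2 * Δ) with hκ
  have hκ' : κ = (Δ + 1) * (2 * Δ) := by
    rcases Nat.eq_zero_or_pos Δ with h | h
    · rw [hκ, h]
      simp
    · rw [hκ, hD, max_eq_left h]
  set C₁ := (4 ^ (D + 2)) ^ (2 * Δ) * ((s + 1) ^ (D + 1) + 1) with hC₁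
  refine ⟨(C₁ + a) * (C₁ + a), ?_⟩
  intro n hn
  set M := Wf n D (s + 1) (2 * Δ) with hM
  have hMpos : 0 < M := by
    have h1 : (s + 1) ^ (D + 1) ≤ M := Wf_ge hn _
    have h2 : 0 < (s + 1) ^ (D + 1) := by positivity
    omega
  have hMle : M + 1 ≤ C₁ * n ^ κ := by
    have h1 := Wf_le (n := n) (D := D) (h := s + 1) hn (2 * Δ)
    calc M + 1 ≤ _ := h1
      _ = C₁ * n ^ κ := by
          rw [mul_pow, ← pow_mul n, hC₁, hκ]
          ring
  have hnpow : ∀ k, 1 ≤ n ^ k := fun k => Nat.one_le_pow _ _ hn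
  have hexp : (M + a * n + 1) * (sz n M a + 1) ≤
      (C₁ + a) * (C₁ + a) * n ^ (a + (2 * Δ + 1) ^ 2) := by
    have h1 : M + a * n + 1 ≤ (C₁ + a) * n ^ (κ + 1) := by
      have h2 : C₁ * n ^ κ ≤ C₁ * n ^ (κ + 1) :=
        Nat.mul_le_mul_left _ (Nat.pow_le_pow_right hn (by omega))
      have h3 : a * n ≤ a * n ^ (κ + 1) :=
        Nat.mul_le_mul_left _ (Nat.le_self_pow (by omega) _)
      calc M + a * n + 1 = (M + 1) + a * n := by ring
        _ ≤ C₁ * n ^ (κ + 1) + a * n ^ (κ + 1) := Nat.add_le_add (hMle.trans h2) h3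
        _ = (C₁ + a) * n ^ (κ + 1) := by ring
    have h2 : sz n M a + 1 ≤ n ^ a * ((C₁ + a) * n ^ κ) := by
      have h3 := sz_le hn M a
      have h4 : a ≤ a * n ^ κ := Nat.le_mul_of_pos_right _ (hnpow κ)
      calc sz n M a + 1 ≤ n ^ a * (M + a) + n ^ a := Nat.add_le_add h3 (hnpow a)
        _ = n ^ a * ((M + 1) + a) := by ring
        _ ≤ n ^ a * (C₁ * n ^ κ + a * n ^ κ) :=
            Nat.mul_le_mul_left _ (Nat.add_le_add hMle h4)
        _ = n ^ a * ((C₁ + a) * n ^ κ) := by ring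
    calc (M + a * n + 1) * (sz n M a + 1) ≤
          ((C₁ + a) * n ^ (κ + 1)) * (n ^ a * ((C₁ + a) * n ^ κ)) := Nat.mul_le_mul h1 h2
      _ = (C₁ + a) * (C₁ + a) * n ^ (a + κ + κ + 1) := by ring
      _ = (C₁ + a) * (C₁ + a) * n ^ (a + (2 * Δ + 1) ^ 2) := by
          congr 2
          rw [hκ']
          ring
  refine ⟨2 ^ ((M + a * n + 1) * (sz n M a + 1)), Nat.pow_le_pow_right (by norm_num) hexp, ?_⟩
  intro red
  obtain ⟨Z, hZ⟩ := exists_final (V := Fin (2 ^ ((M + a * n + 1) * (sz n M a + 1)))) red hn hMpos a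
    (by rw [Fintype.card_fin])
  have hdegI : ∀ v ∈ I, (F.filter (fun e => v ∈ e ∧ e ⊆ I)).card ≤ Δ := by
    intro v hv
    have hvA : v ∉ A := (mem_sdiff.1 hv).2
    refine le_trans (card_le_card ?_) (hdeg v hvA)
    intro e he
    rw [mem_filter] at he ⊢
    refine ⟨he.1, he.2.1, ?_⟩
    rw [disjoint_left]
    intro x hx
    exact (mem_sdiff.1 (he.2.2 hx)).2
  have hdis : Disjoint A I := disjoint_sdiff
  rcases assemble red F hF I (base red F hF I Δ hdegI hn) A hdis Z hZ with h | ⟨φ, h1, -, h3⟩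
  · right
    obtain ⟨B, -, hB, hB'⟩ := h
    refine ⟨B, hB, ?_⟩
    intro e he hec
    obtain ⟨x, y, z, hxy, hxz, hyz, rfl⟩ := card_eq_three.1 hec
    exact hB' x (he (by simp)) y (he (by simp)) z (he (by simp)) hxy hxz.symm hyz.symm
  · left
    have hAI : A ∪ I = univ := by
      rw [hI]
      exact union_sdiff_of_subset (subset_univ _)
    rw [hAI] at h1 h3
    have hinj : Function.Injective φ := fun x y hxy => h1 (by simp) (by simp) hxy
    refine ⟨⟨φ, hinj⟩, ?_⟩
    intro e he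
    rw [map_eq_image]
    exact h3 e he (subset_univ _)

section Sparse

variable {s : ℕ}

theorem linear_card (F : Finset (Finset (Fin s))) (hF : ∀ e ∈ F, e.card = 3)
    (hlin : ∀ e ∈ F, ∀ f ∈ F, e ≠ f → (e ∩ f).card ≤ 1) : 6 * F.card ≤ s * (s - 1) := by
  classical
  have h1 : (F.biUnion (fun e => e.offDiag)).card = ∑ e ∈ F, e.offDiag.card := by
    apply card_biUnion
    intro e he f hf hef
    change Disjoint e.offDiag f.offDiag
    rw [disjoint_left]
    rintro ⟨x, y⟩ h1 h2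
    rw [mem_offDiag] at h1 h2
    have h3 : 1 < (e ∩ f).card := one_lt_card.2
      ⟨x, mem_inter.2 ⟨h1.1, h2.1⟩, y, mem_inter.2 ⟨h1.2.1, h2.2.1⟩, h1.2.2⟩
    exact absurd (hlin e he f hf hef) (by omega)
  have h2 : ∑ e ∈ F, e.offDiag.card = 6 * F.card := by
    rw [sum_congr rfl (fun e he => by rw [offDiag_card, hF e he]), sum_const, smul_eq_mul]
    ring
  have h3 : (F.biUnion (fun e => e.offDiag)).card ≤ (univ : Finset (Fin s)).offDiag.card := by
    apply card_le_card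
    intro p hp
    obtain ⟨e, -, hp⟩ := mem_biUnion.1 hp
    rw [mem_offDiag] at hp ⊢
    exact ⟨mem_univ _, mem_univ _, hp.2.2⟩
  rw [h1, h2, offDiag_card, card_univ, Fintype.card_fin] at h3
  calc 6 * F.card ≤ s * s - s := h3
    _ = s * (s - 1) := by rw [Nat.mul_sub_one]

theorem sum_deg (F : Finset (Finset (Fin s))) (hF : ∀ e ∈ F, e.card = 3) (J : Finset (Fin s)) :
    ∑ v ∈ J, (F.filter (fun e => v ∈ e ∧ e ⊆ J)).card = 3 * (F.filter (fun e => e ⊆ J)).card := by
  classical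
  have h1 : ∀ v ∈ J, (F.filter (fun e => v ∈ e ∧ e ⊆ J)).card =
      ((F.filter (fun e => e ⊆ J)).filter (fun e => v ∈ e)).card := by
    intro v _
    rw [filter_filter]
    congr 1
    ext e
    simp only [mem_filter]
    tauto
  rw [sum_congr rfl h1]
  have := Finset.sum_card_bipartiteAbove_eq_sum_card_bipartiteBelow (s := J)
    (t := F.filter (fun e => e ⊆ J)) (fun v e => v ∈ e)
  unfold Finset.bipartiteAbove Finset.bipartiteBelow at this
  rw [this]
  have h2 : ∀ e ∈ F.filter (fun e => e ⊆ J), (J.filter (fun v => v ∈ e)).card = 3 := by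
    intro e he
    rw [mem_filter] at he
    rw [← hF e he.1]
    congr 1
    ext v
    rw [mem_filter]
    exact ⟨fun h => h.2, fun h => ⟨he.2 h, h⟩⟩
  rw [sum_congr rfl h2, sum_const, smul_eq_mul]
  ring

theorem sparse_subset (F : Finset (Finset (Fin s))) (hF : ∀ e ∈ F, e.card = 3) :
    ∀ k m : ℕ, m + k + 3 = s → ∃ J : Finset (Fin s), J.card = m + 3 ∧
      (F.filter (fun e => e ⊆ J)).card * (s * (s - 1) * (s - 2)) ≤
        F.card * ((m + 3) * (m + 2) * (m + 1)) := by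
  classical
  intro k
  induction k with
  | zero =>
    intro m hm
    refine ⟨univ, by simp; omega, ?_⟩
    have h1 : m + 3 = s := by omega
    have h2 : m + 2 = s - 1 := by omega
    have h3 : m + 1 = s - 2 := by omega
    rw [h1, h2, h3]
    exact Nat.mul_le_mul_right _ (card_filter_le _ _)
  | succ k ih =>
    intro m hm
    obtain ⟨J, hJ, hJ'⟩ := ih (m + 1) (by omega)
    have hex : ∃ v ∈ J, 3 * (F.filter (fun e => e ⊆ J)).card ≤
        (m + 4) * (F.filter (fun e => v ∈ e ∧ e ⊆ J)).card := by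
      by_contra hcon
      push Not at hcon
      have h1 : ∑ v ∈ J, (m + 4) * (F.filter (fun e => v ∈ e ∧ e ⊆ J)).card <
          ∑ v ∈ J, 3 * (F.filter (fun e => e ⊆ J)).card := by
        apply sum_lt_sum_of_nonempty
        · rw [← card_pos, hJ]
          omega
        · exact hcon
      rw [← mul_sum, sum_deg F hF J, sum_const, smul_eq_mul, hJ] at h1
      exact absurd h1 (lt_irrefl _)
    obtain ⟨v, hv, hvd⟩ := hex
    refine ⟨J.erase v, by rw [card_erase_of_mem hv, hJ]; omega, ?_⟩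
    have hsplit : (F.filter (fun e => e ⊆ J.erase v)).card +
        (F.filter (fun e => v ∈ e ∧ e ⊆ J)).card = (F.filter (fun e => e ⊆ J)).card := by
      rw [← card_union_of_disjoint]
      · congr 1
        ext e
        simp only [mem_union, mem_filter]
        constructor
        · rintro (⟨h1, h2⟩ | ⟨h1, h2, h3⟩)
          · exact ⟨h1, h2.trans (erase_subset _ _)⟩
          · exact ⟨h1, h3⟩
        · rintro ⟨h1, h2⟩
          by_cases hve : v ∈ e
          · exact Or.inr ⟨h1, hve, h2⟩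
          · exact Or.inl ⟨h1, subset_erase.2 ⟨h2, hve⟩⟩
      · rw [disjoint_left]
        intro e h1 h2
        rw [mem_filter] at h1 h2
        exact (mem_erase.1 (h1.2 h2.2.1)).1 rfl
    set x := (F.filter (fun e => e ⊆ J.erase v)).card with hx
    set d := (F.filter (fun e => v ∈ e ∧ e ⊆ J)).card with hd
    set y := (F.filter (fun e => e ⊆ J)).card with hy
    have h1 : (m + 4) * x ≤ (m + 1) * y := by
      have : (m + 4) * x + (m + 4) * d = (m + 1) * y + 3 * y := by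
        rw [← mul_add, hsplit]
        ring
      omega
    have h2 : (m + 4) * (x * (s * (s - 1) * (s - 2))) ≤
        (m + 4) * (F.card * ((m + 3) * (m + 2) * (m + 1))) := by
      calc (m + 4) * (x * (s * (s - 1) * (s - 2))) =
            ((m + 4) * x) * (s * (s - 1) * (s - 2)) := by ring
        _ ≤ ((m + 1) * y) * (s * (s - 1) * (s - 2)) := Nat.mul_le_mul_right _ h1
        _ = (m + 1) * (y * (s * (s - 1) * (s - 2))) := by ring
        _ ≤ (m + 1) * (F.card * ((m + 1 + 3) * (m + 1 + 2) * (m + 1 + 1))) :=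
            Nat.mul_le_mul_left _ hJ'
        _ = (m + 4) * (F.card * ((m + 3) * (m + 2) * (m + 1))) := by ring
    exact Nat.le_of_mul_le_mul_left h2 (by omega)

/-- A linear 3-graph on `s ≥ 4096 u ^ 3` vertices has a set of at least `32 u ^ 2` vertices
inside which all degrees are at most `u`. -/
theorem choose_set (F : Finset (Finset (Fin s))) (hF : ∀ e ∈ F, e.card = 3)
    (hlin : ∀ e ∈ F, ∀ f ∈ F, e ≠ f → (e ∩ f).card ≤ 1) (u : ℕ) (hu : 1 ≤ u)
    (hs : 4096 * u ^ 3 ≤ s) :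
    ∃ A : Finset (Fin s), A.card + 32 * u ^ 2 ≤ s ∧
      ∀ v, v ∉ A → (F.filter (fun e => v ∈ e ∧ Disjoint e A)).card ≤ u := by
  classical
  have hu2 : 1 ≤ u ^ 2 := Nat.one_le_pow _ _ hu
  have hu3 : u ^ 2 ≤ u ^ 3 := Nat.pow_le_pow_right hu (by norm_num)
  obtain ⟨J, hJ, hJ'⟩ := sparse_subset F hF (s - 64 * u ^ 2) (64 * u ^ 2 - 3) (by omega)
  have hJc : J.card = 64 * u ^ 2 := by omega
  have hcount := linear_card F hF hlin
  set y := (F.filter (fun e => e ⊆ J)).card with hy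
  -- 6 y ≤ 64 (u + 1) u ^ 2
  have hy6 : 6 * y ≤ 64 * (u + 1) * u ^ 2 := by
    have hs1 : 0 < s - 2 := by omega
    have h1 : s * (s - 1) * (6 * y * (s - 2)) ≤
        s * (s - 1) * (64 * (u + 1) * u ^ 2 * (s - 2)) := by
      have e1 : 64 * u ^ 2 - 3 + 3 = 64 * u ^ 2 := by omega
      have e2 : 64 * u ^ 2 - 3 + 2 ≤ 64 * u ^ 2 := by omega
      have e3 : 64 * u ^ 2 - 3 + 1 ≤ 64 * u ^ 2 := by omega
      have e4 : (64 * u ^ 2) * (64 * u ^ 2) ≤ (u + 1) * (s - 2) := by
        have e5 : 4096 * u ^ 3 - 2 ≤ s - 2 := by omega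
        have e6 : (u + 1) * (4096 * u ^ 3 - 2) ≤ (u + 1) * (s - 2) := Nat.mul_le_mul_left _ e5
        refine le_trans ?_ e6
        have e7 : 2 ≤ 4096 * u ^ 3 := by omega
        zify [e7]
        have e8 : (1 : ℤ) ≤ u := by exact_mod_cast hu
        nlinarith [pow_pos (lt_of_lt_of_le one_pos e8) 2, pow_pos (lt_of_lt_of_le one_pos e8) 3,
          mul_le_mul_of_nonneg_left e8 (pow_pos (lt_of_lt_of_le one_pos e8) 2).le]
      calc s * (s - 1) * (6 * y * (s - 2)) = 6 * (y * (s * (s - 1) * (s - 2))) := by ring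
        _ ≤ 6 * (F.card * ((64 * u ^ 2 - 3 + 3) * (64 * u ^ 2 - 3 + 2) *
              (64 * u ^ 2 - 3 + 1))) := Nat.mul_le_mul_left _ hJ'
        _ = (6 * F.card) * ((64 * u ^ 2 - 3 + 3) * (64 * u ^ 2 - 3 + 2) *
              (64 * u ^ 2 - 3 + 1)) := by ring
        _ ≤ (s * (s - 1)) * ((64 * u ^ 2) * (64 * u ^ 2) * (64 * u ^ 2)) :=
            Nat.mul_le_mul hcount (Nat.mul_le_mul (Nat.mul_le_mul e1.le e2) e3)
        _ = s * (s - 1) * (64 * u ^ 2 * ((64 * u ^ 2) * (64 * u ^ 2))) := by ring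
        _ ≤ s * (s - 1) * (64 * u ^ 2 * ((u + 1) * (s - 2))) :=
            Nat.mul_le_mul_left _ (Nat.mul_le_mul_left _ e4)
        _ = s * (s - 1) * (64 * (u + 1) * u ^ 2 * (s - 2)) := by ring
    have hpos : 0 < s * (s - 1) := Nat.mul_pos (by omega) (by omega)
    exact Nat.le_of_mul_le_mul_right (Nat.le_of_mul_le_mul_left h1 hpos) hs1
  set Bad := J.filter (fun v => u < (F.filter (fun e => v ∈ e ∧ e ⊆ J)).card) with hBad
  have hBadc : Bad.card ≤ 32 * u ^ 2 := by
    have h1 : Bad.card * (u + 1) ≤ ∑ v ∈ Bad, (F.filter (fun e => v ∈ e ∧ e ⊆ J)).card := by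
      rw [← smul_eq_mul, ← sum_const]
      apply sum_le_sum
      intro v hv
      exact (mem_filter.1 hv).2
    have h2 : ∑ v ∈ Bad, (F.filter (fun e => v ∈ e ∧ e ⊆ J)).card ≤ 3 * y := by
      rw [← sum_deg F hF J]
      exact sum_le_sum_of_subset (filter_subset _ _)
    have h3 : Bad.card * (u + 1) ≤ (32 * u ^ 2) * (u + 1) := by
      have h4 : 64 * (u + 1) * u ^ 2 = 2 * ((32 * u ^ 2) * (u + 1)) := by ring
      omega
    exact Nat.le_of_mul_le_mul_right h3 (by omega)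
  set I := J \ Bad with hI
  have hIc : 32 * u ^ 2 ≤ I.card := by
    have h1 : I.card + Bad.card = J.card := card_sdiff_add_card_eq_card (filter_subset _ _)
    omega
  refine ⟨univ \ I, ?_, ?_⟩
  · have h1 : (univ \ I).card + I.card = s := by
      rw [card_sdiff_add_card_eq_card (subset_univ _), card_univ, Fintype.card_fin]
    omega
  · intro v hv
    have hvI : v ∈ I := by
      by_contra h
      exact hv (mem_sdiff.2 ⟨mem_univ _, h⟩)
    have hvJ : v ∈ J := (mem_sdiff.1 hvI).1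
    have hvB : ¬ u < (F.filter (fun e => v ∈ e ∧ e ⊆ J)).card := fun h =>
      (mem_sdiff.1 hvI).2 (mem_filter.2 ⟨hvJ, h⟩)
    refine le_trans (card_le_card ?_) (not_lt.1 hvB)
    intro e he
    rw [mem_filter] at he ⊢
    refine ⟨he.1, he.2.1, ?_⟩
    intro x hx
    have h1 := disjoint_left.1 he.2.2 hx
    by_contra h2
    exact h1 (mem_sdiff.2 ⟨mem_univ _, fun h => h2 (mem_sdiff.1 h).1⟩)

end Sparse

end Pool.Agent.LinUp54
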