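import Mathlib

/-!
Dependent random choice for ordered graphs without large independent sets, and the embedding of
ordered graphs of bounded back-degree.
-/

namespace Pool.Agent.LinUp54

open Finset

variable {V : Type*} [LinearOrder V]

theorem indep (χ : V → V → Prop) (d : ℕ) : ∀ (k : ℕ) (Y : Finset V), Y.card = k →
    (∀ x ∈ Y, ∀ Z ⊆ Y, (∀ y ∈ Z, x < y ∧ χ x y) → Z.card ≤ d) →
    ∃ B ⊆ Y, Y.card ≤ (d + 1) * B.card ∧ ∀ x ∈ B, ∀ y ∈ B, x < y → ¬ χ x y := by
  classical
  intro k
  induction k using Nat.strong_induction_on with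
  | _ k ih =>
    intro Y hY hdeg
    by_cases hne : Y.Nonempty
    · set x := Y.min' hne with hx
      have hxY : x ∈ Y := min'_mem Y hne
      set N := Y.filter (fun y => x < y ∧ χ x y) with hN
      set Y' := (Y.erase x) \ N with hY'
      have hY'Y : Y' ⊆ Y := sdiff_subset.trans (erase_subset _ _)
      have hNc : N.card ≤ d := hdeg x hxY N (filter_subset _ _) (fun y hy => (mem_filter.1 hy).2)
      have hc : Y.card ≤ Y'.card + d + 1 := by
        have h1 : (Y.erase x).card ≤ Y'.card + N.card := by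
          have := card_le_card (show Y.erase x ⊆ Y' ∪ N by
            intro z hz
            by_cases hzN : z ∈ N
            · exact mem_union_right _ hzN
            · exact mem_union_left _ (mem_sdiff.2 ⟨hz, hzN⟩))
          exact this.trans (card_union_le _ _)
        rw [card_erase_of_mem hxY] at h1
        omega
      have hlt : Y'.card < k := by
        rw [← hY]
        apply card_lt_card
        refine ⟨hY'Y, fun h => ?_⟩
        have := h hxY
        simp [hY'] at this
      obtain ⟨B, hB, hBc, hBi⟩ := ih _ hlt Y' rfl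
        (fun z hz Z hZ hZ' => hdeg z (hY'Y hz) Z (hZ.trans hY'Y) hZ')
      have hxB : x ∉ B := fun h => by
        have := hB h
        simp [hY'] at this
      refine ⟨insert x B, ?_, ?_, ?_⟩
      · intro z hz
        rcases mem_insert.1 hz with rfl | hz
        · exact hxY
        · exact hY'Y (hB hz)
      · rw [card_insert_of_notMem hxB]
        calc Y.card ≤ Y'.card + d + 1 := hc
          _ ≤ (d + 1) * B.card + (d + 1) := by omega
          _ = (d + 1) * (B.card + 1) := by ring
      · intro y hy z hz hyz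
        rcases mem_insert.1 hy with h1 | hy
        · rcases mem_insert.1 hz with h2 | hz
          · rw [h1, h2] at hyz
            exact absurd hyz (lt_irrefl _)
          · intro hχ
            have hzY' := hB hz
            have hzN : z ∈ N := by
              rw [h1] at hyz hχ
              exact mem_filter.2 ⟨hY'Y hzY', hyz, hχ⟩
            exact (mem_sdiff.1 hzY').2 hzN
        · rcases mem_insert.1 hz with h2 | hz
          · rw [h2] at hyz
            exact absurd hyz (not_lt.2 (min'_le Y y (hY'Y (hB hy))))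
          · exact hBi y hy z hz hyz
    · rw [not_nonempty_iff_eq_empty] at hne
      subst hne
      exact ⟨∅, Subset.refl _, by simp, by simp⟩

/-- Many vertices have large forward degree. -/
theorem many_large (χ : V → V → Prop) [DecidableRel χ] {n : ℕ} (hn : 1 ≤ n) (W : Finset V)
    (hfree : ∀ B ⊆ W, B.card = n → ∃ x ∈ B, ∃ y ∈ B, x < y ∧ χ x y)
    (hW : 4 * n ≤ W.card) :
    W.card ≤ 2 * (W.filter (fun x => W.card ≤
      4 * n * (W.filter (fun y => x < y ∧ χ x y)).card)).card := by
  classical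
  set X := W.filter (fun x => W.card ≤ 4 * n * (W.filter (fun y => x < y ∧ χ x y)).card) with hX
  set d := W.card / (4 * n) with hd
  obtain ⟨B, hB, hBc, hBi⟩ := indep χ d _ (W \ X) rfl (by
    intro x hx Z hZ hZ'
    have h1 : ¬ W.card ≤ 4 * n * (W.filter (fun y => x < y ∧ χ x y)).card := by
      intro h
      exact (mem_sdiff.1 hx).2 (mem_filter.2 ⟨(mem_sdiff.1 hx).1, h⟩)
    have h2 : Z.card ≤ (W.filter (fun y => x < y ∧ χ x y)).card := by
      apply card_le_card
      intro y hy
      exact mem_filter.2 ⟨(mem_sdiff.1 (hZ hy)).1, hZ' y hy⟩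
    rw [hd, Nat.le_div_iff_mul_le (by omega)]
    calc Z.card * (4 * n) ≤ (W.filter (fun y => x < y ∧ χ x y)).card * (4 * n) :=
          Nat.mul_le_mul_right _ h2
      _ ≤ W.card := by
          rw [mul_comm]
          omega)
  have hBn : B.card < n := by
    by_contra hcon
    push Not at hcon
    obtain ⟨B', hB', hB'c⟩ := exists_subset_card_eq hcon
    obtain ⟨x, hx, y, hy, hxy, hχ⟩ := hfree B' (hB'.trans (hB.trans sdiff_subset)) hB'c
    exact hBi x (hB' hx) y (hB' hy) hxy hχ
  have h1 : (W \ X).card ≤ (d + 1) * n := hBc.trans (Nat.mul_le_mul_left _ hBn.le)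
  have h2 : d * (4 * n) ≤ W.card := Nat.div_mul_le_self _ _
  have h3 : (W \ X).card + X.card = W.card :=
    card_sdiff_add_card_eq_card (filter_subset _ _)
  have h4 : (d + 1) * n = d * n + n := by ring
  have h5 : d * (4 * n) = 4 * (d * n) := by ring
  omega

theorem drc (χ : V → V → Prop) {n D h u : ℕ} (hn : 1 ≤ n) (hD : 1 ≤ D) (W : Finset V)
    (hfree : ∀ B ⊆ W, B.card = n → ∃ x ∈ B, ∃ y ∈ B, x < y ∧ χ x y)
    (hw1 : h ^ (D + 1) ≤ W.card) (hw2 : 2 * (4 * n) ^ (D + 1) * (u + 1) < W.card) :
    ∃ U ⊆ W, u ≤ U.card ∧ ∀ τ : Fin D → V, (∀ i, τ i ∈ U) →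
      ∃ C ⊆ W, h ≤ C.card ∧ ∀ y ∈ C, ∀ i, τ i < y ∧ χ (τ i) y := by
  classical
  set w := W.card with hw
  have h4n : 4 * n ≤ w := by
    have h1 : 4 * n ≤ (4 * n) ^ (D + 1) := Nat.le_self_pow (by omega) _
    have h2 : (4 * n) ^ (D + 1) ≤ 2 * (4 * n) ^ (D + 1) * (u + 1) := by
      calc (4 * n) ^ (D + 1) = 1 * (4 * n) ^ (D + 1) * 1 := by ring
        _ ≤ 2 * (4 * n) ^ (D + 1) * (u + 1) :=
            Nat.mul_le_mul (Nat.mul_le_mul_right _ (by norm_num)) (by omega)
    omega
  have hw0 : 0 < w := by omega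
  set Ω : Finset (Fin (D + 1) → V) := Fintype.piFinset (fun _ => W) with hΩ
  have hΩc : Ω.card = w ^ (D + 1) := by
    rw [hΩ, Fintype.card_piFinset]
    simp [hw]
  set C : (Fin D → V) → Finset V := fun τ => W.filter (fun y => ∀ i, τ i < y ∧ χ (τ i) y) with hC
  set bad : Finset (Fin D → V) := (Fintype.piFinset (fun _ => W)).filter
    (fun τ => (C τ).card < h) with hbad
  have hbadc : bad.card ≤ w ^ D := by
    calc bad.card ≤ (Fintype.piFinset (fun _ : Fin D => W)).card := card_filter_le _ _
      _ = w ^ D := by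
          rw [Fintype.card_piFinset]
          simp [hw]
  -- the relation between a tuple and a vertex
  set rA : (Fin (D + 1) → V) → V → Prop := fun y x => ∀ i, x < y i ∧ χ x (y i) with hrA
  set rB : (Fin (D + 1) → V) → (Fin D → V) → Prop := fun y τ => ∀ j, rA y (τ j) with hrB
  have hsumA : ∑ y ∈ Ω, (W.filter (fun x => rA y x)).card =
      ∑ x ∈ W, (W.filter (fun y => x < y ∧ χ x y)).card ^ (D + 1) := by
    have := Finset.sum_card_bipartiteAbove_eq_sum_card_bipartiteBelow (s := Ω) (t := W)
      (fun y x => rA y x)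
    unfold Finset.bipartiteAbove Finset.bipartiteBelow at this
    rw [this]
    apply Finset.sum_congr rfl
    intro x hx
    have h1 : Ω.filter (fun y => rA y x) =
        Fintype.piFinset (fun _ : Fin (D + 1) => W.filter (fun y => x < y ∧ χ x y)) := by
      ext y
      simp only [hΩ, hrA, mem_filter, Fintype.mem_piFinset]
      constructor
      · rintro ⟨h1, h2⟩ i
        exact ⟨h1 i, h2 i⟩
      · intro h1
        exact ⟨fun i => (h1 i).1, fun i => (h1 i).2⟩
    rw [h1, Fintype.card_piFinset]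
    simp
  have hsumB : ∑ y ∈ Ω, (bad.filter (fun τ => rB y τ)).card ≤ w ^ D * h ^ (D + 1) := by
    have := Finset.sum_card_bipartiteAbove_eq_sum_card_bipartiteBelow (s := Ω) (t := bad)
      (fun y τ => rB y τ)
    unfold Finset.bipartiteAbove Finset.bipartiteBelow at this
    rw [this]
    calc ∑ τ ∈ bad, (Ω.filter (fun y => rB y τ)).card ≤ ∑ τ ∈ bad, h ^ (D + 1) := by
          apply Finset.sum_le_sum
          intro τ hτ
          have h1 : Ω.filter (fun y => rB y τ) ⊆
              Fintype.piFinset (fun _ : Fin (D + 1) => C τ) := by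
            intro y hy
            rw [mem_filter] at hy
            rw [Fintype.mem_piFinset]
            intro i
            rw [hΩ, Fintype.mem_piFinset] at hy
            exact mem_filter.2 ⟨hy.1 i, fun j => hy.2 j i⟩
          calc (Ω.filter (fun y => rB y τ)).card ≤
                (Fintype.piFinset (fun _ : Fin (D + 1) => C τ)).card := card_le_card h1
            _ = (C τ).card ^ (D + 1) := by
                rw [Fintype.card_piFinset]
                simp
            _ ≤ h ^ (D + 1) := Nat.pow_le_pow_left (mem_filter.1 hτ).2.le _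
      _ = bad.card * h ^ (D + 1) := by simp
      _ ≤ w ^ D * h ^ (D + 1) := Nat.mul_le_mul_right _ hbadc
  -- choose a good tuple
  have hex : ∃ y ∈ Ω, (bad.filter (fun τ => rB y τ)).card + u ≤
      (W.filter (fun x => rA y x)).card := by
    by_contra hcon
    push Not at hcon
    have h1 : ∑ y ∈ Ω, (W.filter (fun x => rA y x)).card ≤
        ∑ y ∈ Ω, ((bad.filter (fun τ => rB y τ)).card + u) :=
      Finset.sum_le_sum (fun y hy => (hcon y hy).le)
    rw [Finset.sum_add_distrib, Finset.sum_const, smul_eq_mul, hΩc] at h1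
    have h2 : w ^ D * h ^ (D + 1) ≤ w ^ (D + 1) := by
      rw [pow_succ w D]
      exact Nat.mul_le_mul_left _ hw1
    have h3 : ∑ x ∈ W, (W.filter (fun y => x < y ∧ χ x y)).card ^ (D + 1) ≤
        w ^ (D + 1) * (u + 1) := by
      rw [← hsumA]
      calc _ ≤ _ := h1
        _ ≤ w ^ D * h ^ (D + 1) + w ^ (D + 1) * u := Nat.add_le_add_right hsumB _
        _ ≤ w ^ (D + 1) + w ^ (D + 1) * u := Nat.add_le_add_right h2 _
        _ = w ^ (D + 1) * (u + 1) := by ring
    have hX := many_large χ hn W hfree h4n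
    set X := W.filter (fun x => W.card ≤ 4 * n * (W.filter (fun y => x < y ∧ χ x y)).card)
      with hXdef
    have h4 : X.card * w ^ (D + 1) ≤ (4 * n) ^ (D + 1) *
        ∑ x ∈ W, (W.filter (fun y => x < y ∧ χ x y)).card ^ (D + 1) := by
      rw [Finset.mul_sum]
      calc X.card * w ^ (D + 1) = ∑ x ∈ X, w ^ (D + 1) := by simp
        _ ≤ ∑ x ∈ X, (4 * n) ^ (D + 1) * (W.filter (fun y => x < y ∧ χ x y)).card ^ (D + 1) := by
            apply Finset.sum_le_sum
            intro x hx
            rw [← mul_pow]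
            exact Nat.pow_le_pow_left (mem_filter.1 hx).2 _
        _ ≤ _ := Finset.sum_le_sum_of_subset (filter_subset _ _)
    have h5 : w * w ^ (D + 1) ≤ (2 * (4 * n) ^ (D + 1) * (u + 1)) * w ^ (D + 1) := by
      calc w * w ^ (D + 1) ≤ 2 * X.card * w ^ (D + 1) := Nat.mul_le_mul_right _ hX
        _ = 2 * (X.card * w ^ (D + 1)) := by ring
        _ ≤ 2 * ((4 * n) ^ (D + 1) * (w ^ (D + 1) * (u + 1))) :=
            Nat.mul_le_mul_left _ (h4.trans (Nat.mul_le_mul_left _ h3))
        _ = (2 * (4 * n) ^ (D + 1) * (u + 1)) * w ^ (D + 1) := by ring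
    have h6 := Nat.le_of_mul_le_mul_right h5 (by positivity)
    omega
  obtain ⟨y, hy, hyc⟩ := hex
  set A := W.filter (fun x => rA y x) with hA
  set By := bad.filter (fun τ => rB y τ) with hBy
  refine ⟨A \ By.image (fun τ => τ ⟨0, hD⟩), sdiff_subset.trans (filter_subset _ _), ?_, ?_⟩
  · have h1 := le_card_sdiff (By.image (fun τ => τ ⟨0, hD⟩)) A
    have h2 : (By.image (fun τ => τ ⟨0, hD⟩)).card ≤ By.card := card_image_le
    omega
  · intro τ hτ
    refine ⟨C τ, filter_subset _ _, ?_, fun y hy => (mem_filter.1 hy).2⟩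
    by_contra hcon
    push Not at hcon
    have hτA : ∀ j, τ j ∈ A := fun j => (mem_sdiff.1 (hτ j)).1
    have h1 : τ ∈ bad := by
      refine mem_filter.2 ⟨?_, hcon⟩
      rw [Fintype.mem_piFinset]
      exact fun j => (mem_filter.1 (hτA j)).1
    have h2 : τ ∈ By := mem_filter.2 ⟨h1, fun j => (mem_filter.1 (hτA j)).2⟩
    exact (mem_sdiff.1 (hτ ⟨0, hD⟩)).2 (mem_image.2 ⟨τ, h2, rfl⟩)

/-- Size needed to embed graphs with `q + 1` classes. -/
def Wf (n D h : ℕ) : ℕ → ℕ
  | 0 => h ^ (D + 1)
  | q + 1 => 2 * (4 * n) ^ (D + 1) * (Wf n D h q + 1) + 1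

theorem Wf_ge {n D h : ℕ} (hn : 1 ≤ n) : ∀ q, h ^ (D + 1) ≤ Wf n D h q
  | 0 => le_rfl
  | q + 1 => by
    have h1 := Wf_ge (D := D) (h := h) hn q
    have h2 : 1 ≤ 2 * (4 * n) ^ (D + 1) := Nat.one_le_iff_ne_zero.2 (by positivity)
    calc h ^ (D + 1) ≤ 1 * (Wf n D h q + 1) := by omega
      _ ≤ 2 * (4 * n) ^ (D + 1) * (Wf n D h q + 1) := Nat.mul_le_mul_right _ h2
      _ ≤ Wf n D h (q + 1) := by simp [Wf]

theorem Wf_le {n D h : ℕ} (hn : 1 ≤ n) :
    ∀ q, Wf n D h q + 1 ≤ (4 ^ (D + 2) * n ^ (D + 1)) ^ q * (h ^ (D + 1) + 1)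
  | 0 => by simp [Wf]
  | q + 1 => by
    have h1 := Wf_le (D := D) (h := h) hn q
    have hp : 1 ≤ n ^ (D + 1) := Nat.one_le_pow _ _ hn
    have hp4 : 1 ≤ 4 ^ (D + 1) := Nat.one_le_pow _ _ (by norm_num)
    have h2 : 2 * (4 * n) ^ (D + 1) * (Wf n D h q + 1) + 1 + 1 ≤
        (4 ^ (D + 2) * n ^ (D + 1)) * (Wf n D h q + 1) := by
      have h3 : 4 ^ (D + 2) * n ^ (D + 1) * (Wf n D h q + 1) =
          2 * (4 * n) ^ (D + 1) * (Wf n D h q + 1) +
            2 * (4 ^ (D + 1) * n ^ (D + 1) * (Wf n D h q + 1)) := by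
        rw [mul_pow]
        ring
      rw [h3]
      have h4 : 1 ≤ 4 ^ (D + 1) * n ^ (D + 1) * (Wf n D h q + 1) := by
        exact Nat.one_le_iff_ne_zero.2 (by positivity)
      omega
    calc Wf n D h (q + 1) + 1 = 2 * (4 * n) ^ (D + 1) * (Wf n D h q + 1) + 1 + 1 := by
          simp [Wf]
      _ ≤ (4 ^ (D + 2) * n ^ (D + 1)) * (Wf n D h q + 1) := h2
      _ ≤ (4 ^ (D + 2) * n ^ (D + 1)) * ((4 ^ (D + 2) * n ^ (D + 1)) ^ q * (h ^ (D + 1) + 1)) :=
          Nat.mul_le_mul_left _ h1
      _ = (4 ^ (D + 2) * n ^ (D + 1)) ^ (q + 1) * (h ^ (D + 1) + 1) := by ring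

/-- Greedy extension of an injection. -/
theorem extend_inj {s : ℕ} (φ₀ : Fin s → V) (I' : Finset (Fin s)) (hinj : Set.InjOn φ₀ I')
    (K : Fin s → Finset V) (J : Finset (Fin s)) :
    (∀ v ∈ J, I'.card + J.card ≤ (K v).card) → Disjoint I' J →
    ∃ φ : Fin s → V, (∀ v ∈ I', φ v = φ₀ v) ∧ (∀ v ∈ J, φ v ∈ K v) ∧
      Set.InjOn φ ↑(I' ∪ J) := by
  classical
  induction J using Finset.induction_on with
  | empty =>
    intro _ _
    exact ⟨φ₀, fun v _ => rfl, by simp, by simpa using hinj⟩
  | insert v J hv ih =>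
    intro hK hdis
    rw [disjoint_insert_right] at hdis
    obtain ⟨φ, h1, h2, h3⟩ := ih (fun w hw => by
      have := hK w (mem_insert_of_mem hw)
      rw [card_insert_of_notMem hv] at this
      omega) hdis.2
    have h4 : ∃ y ∈ K v, y ∉ (I' ∪ J).image φ := by
      by_contra hcon
      push Not at hcon
      have h5 : (K v).card ≤ ((I' ∪ J).image φ).card := card_le_card hcon
      have h6 : ((I' ∪ J).image φ).card ≤ I'.card + J.card :=
        card_image_le.trans (card_union_le _ _)
      have h7 := hK v (mem_insert_self _ _)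
      rw [card_insert_of_notMem hv] at h7
      omega
    obtain ⟨y, hy, hy'⟩ := h4
    have hne : ∀ w ∈ I' ∪ J, w ≠ v := by
      rintro w hw rfl
      rcases mem_union.1 hw with h | h
      · exact hdis.1 h
      · exact hv h
    refine ⟨Function.update φ v y, ?_, ?_, ?_⟩
    · intro w hw
      rw [Function.update_of_ne (hne w (mem_union_left _ hw))]
      exact h1 w hw
    · intro w hw
      rcases mem_insert.1 hw with rfl | hw
      · simpa using hy
      · rw [Function.update_of_ne (hne w (mem_union_right _ hw))]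
        exact h2 w hw
    · intro a ha b hb hab
      have key : ∀ w ∈ I' ∪ insert v J, w = v ∨ w ∈ I' ∪ J := by
        intro w hw
        rcases mem_union.1 hw with h | h
        · exact Or.inr (mem_union_left _ h)
        · rcases mem_insert.1 h with h | h
          · exact Or.inl h
          · exact Or.inr (mem_union_right _ h)
      rcases key a ha with ha' | ha' <;> rcases key b hb with hb' | hb'
      · rw [ha', hb']
      · exfalso
        rw [ha', Function.update_self, Function.update_of_ne (hne b hb')] at hab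
        exact hy' (mem_image.2 ⟨b, hb', hab.symm⟩)
      · exfalso
        rw [hb', Function.update_self, Function.update_of_ne (hne a ha')] at hab
        exact hy' (mem_image.2 ⟨a, ha', hab⟩)
      · rw [Function.update_of_ne (hne a ha'), Function.update_of_ne (hne b hb')] at hab
        exact h3 ha' hb' hab

theorem emb {s : ℕ} (χ : V → V → Prop) {n D h : ℕ} (hn : 1 ≤ n) (hD : 1 ≤ D) (hh : 1 ≤ h)
    (c : Fin s → ℕ) (Hr : Fin s → Fin s → Prop) :
    ∀ (q : ℕ) (T : Finset V),
      (∀ B ⊆ T, B.card = n → ∃ x ∈ B, ∃ y ∈ B, x < y ∧ χ x y) → Wf n D h q ≤ T.card →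
      ∀ I : Finset (Fin s), (∀ v ∈ I, c v ≤ q) →
      (∀ v ∈ I, ∀ B ⊆ I, (∀ u ∈ B, c u < c v ∧ Hr u v) → B.card ≤ D) → I.card ≤ h →
      ∃ φ : Fin s → V, Set.InjOn φ I ∧ (∀ v ∈ I, φ v ∈ T) ∧
        ∀ u ∈ I, ∀ v ∈ I, c u < c v → Hr u v → φ u < φ v ∧ χ (φ u) (φ v) := by
  classical
  intro q
  induction q with
  | zero =>
    intro T _ hT I hc _ hI
    have hTne : T.Nonempty := by
      rw [← card_pos]
      exact lt_of_lt_of_le (Nat.pow_pos hh) hT
    obtain ⟨t, ht⟩ := hTne
    obtain ⟨φ, -, h2, h3⟩ := extend_inj (fun _ : Fin s => t) ∅ (by simp) (fun _ => T) I (by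
      intro v _
      have : h ≤ h ^ (D + 1) := Nat.le_self_pow (by omega) _
      have h0 : Wf n D h 0 = h ^ (D + 1) := rfl
      rw [h0] at hT
      simp
      omega) (by simp)
    refine ⟨φ, by simpa using h3, h2, ?_⟩
    intro u hu v hv huv
    have := hc v hv
    omega
  | succ q ih =>
    intro T hfree hT I hc hdeg hI
    obtain ⟨U, hU, hUc, hUC⟩ := drc χ (h := h) (u := Wf n D h q) hn hD T hfree
      ((Wf_ge hn (q + 1)).trans hT) (by simp only [Wf] at hT; omega)
    set I' := I.filter (fun v => c v ≤ q) with hI'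
    set J := I.filter (fun v => ¬ c v ≤ q) with hJ
    obtain ⟨φ₀, h1, h2, h3⟩ := ih U (fun B hB => hfree B (hB.trans hU)) hUc I'
      (fun v hv => (mem_filter.1 hv).2)
      (fun v hv B hB hB' => hdeg v (mem_filter.1 hv).1 B (hB.trans (filter_subset _ _)) hB')
      ((card_le_card (filter_subset _ _)).trans hI)
    have hunion : I' ∪ J = I := filter_union_filter_not_eq _ _
    have hdisj : Disjoint I' J := disjoint_filter_filter_not _ _ _
    have hcard : I'.card + J.card = I.card := by
      rw [← card_union_of_disjoint hdisj, hunion]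
    set K : Fin s → Finset V := fun v =>
      T.filter (fun y => ∀ u ∈ I', Hr u v → φ₀ u < y ∧ χ (φ₀ u) y) with hK
    have hKc : ∀ v ∈ J, h ≤ (K v).card := by
      intro v hv
      have hvI := (mem_filter.1 hv).1
      have hcv := (mem_filter.1 hv).2
      set B := I'.filter (fun u => Hr u v) with hB
      by_cases hBne : B.Nonempty
      · have hBD : B.card ≤ D := by
          apply hdeg v hvI B ((filter_subset _ _).trans (filter_subset _ _))
          intro u hu
          refine ⟨?_, (mem_filter.1 hu).2⟩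
          have := (mem_filter.1 (mem_filter.1 hu).1).2
          omega
        haveI : Nonempty {x // x ∈ B} := ⟨⟨hBne.choose, hBne.choose_spec⟩⟩
        obtain ⟨e⟩ : Nonempty ({x // x ∈ B} ↪ Fin D) :=
          Function.Embedding.nonempty_of_card_le (by simpa using hBD)
        set σ := Function.invFun e with hσ
        have hσs : Function.Surjective σ := Function.invFun_surjective e.injective
        obtain ⟨C, hC, hCc, hC'⟩ := hUC (fun i => φ₀ (σ i)) (fun i =>
          h2 _ (mem_filter.1 (σ i).2).1)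
        refine hCc.trans (card_le_card ?_)
        intro y hy
        refine mem_filter.2 ⟨hC hy, ?_⟩
        intro u hu huv
        obtain ⟨i, hi⟩ := hσs ⟨u, mem_filter.2 ⟨hu, huv⟩⟩
        have := hC' y hy i
        simp only [hi] at this
        exact this
      · rw [not_nonempty_iff_eq_empty] at hBne
        have hKT : K v = T := by
          apply filter_true_of_mem
          intro y _ u hu huv
          exfalso
          have : u ∈ B := mem_filter.2 ⟨hu, huv⟩
          rw [hBne] at this
          simp at this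
        rw [hKT]
        exact ((Nat.le_self_pow (by omega) h).trans (Wf_ge hn (q + 1))).trans hT
    obtain ⟨φ, g1, g2, g3⟩ := extend_inj φ₀ I' h1 K J (fun v hv => by
      rw [hcard]
      exact hI.trans (hKc v hv)) hdisj
    rw [hunion] at g3
    refine ⟨φ, g3, ?_, ?_⟩
    · intro v hv
      by_cases hcv : c v ≤ q
      · rw [g1 v (mem_filter.2 ⟨hv, hcv⟩)]
        exact hU (h2 v (mem_filter.2 ⟨hv, hcv⟩))
      · exact (mem_filter.1 (g2 v (mem_filter.2 ⟨hv, hcv⟩))).1
    · intro u hu v hv huv hH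
      have hcu : c u ≤ q := by
        have := hc v hv
        omega
      have huI' : u ∈ I' := mem_filter.2 ⟨hu, hcu⟩
      by_cases hcv : c v ≤ q
      · have hvI' : v ∈ I' := mem_filter.2 ⟨hv, hcv⟩
        rw [g1 u huI', g1 v hvI']
        exact h3 u huI' v hvI' huv hH
      · rw [g1 u huI']
        exact (mem_filter.1 (g2 v (mem_filter.2 ⟨hv, hcv⟩))).2 u huI' hH

end Pool.Agent.LinUp54
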