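import Pool.Agent.Lib_helper54.LinUp.Tree
import Pool.Agent.Lib_helper54.LinUp.Drc

/-!
Embedding of a 3-graph into a final structure.
-/

namespace Pool.Agent.LinUp54

open Finset

theorem greedy_col {α : Type*} [DecidableEq α] (adj : α → α → Prop)
    (hs : ∀ x y, adj x y → adj y x) (d : ℕ) (I : Finset α) :
    (∀ v ∈ I, ∀ B ⊆ I, (∀ u ∈ B, adj v u) → v ∉ B → B.card ≤ d) →
    ∃ c : α → ℕ, (∀ v ∈ I, c v ≤ d) ∧ ∀ u ∈ I, ∀ v ∈ I, adj u v → u ≠ v → c u ≠ c v := by
  classical
  induction I using Finset.induction_on with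
  | empty => intro _; exact ⟨fun _ => 0, by simp, by simp⟩
  | insert v I hv ih =>
    intro hdeg
    obtain ⟨c, h1, h2⟩ := ih (fun w hw B hB hB' hwB =>
      hdeg w (mem_insert_of_mem hw) B (hB.trans (subset_insert _ _)) hB' hwB)
    set N := I.filter (fun u => adj v u) with hN
    have hNc : N.card ≤ d := hdeg v (mem_insert_self _ _) N
      ((filter_subset _ _).trans (subset_insert _ _)) (fun u hu => (mem_filter.1 hu).2)
      (fun h => hv (mem_filter.1 h).1)
    obtain ⟨k, hk, hk'⟩ : ∃ k ∈ range (d + 1), k ∉ N.image c := by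
      by_contra hcon
      push Not at hcon
      have h3 := card_le_card hcon
      have h4 : (N.image c).card ≤ N.card := card_image_le
      simp at h3
      omega
    have hcol : ∀ u ∈ I, adj v u → c u ≠ k := by
      intro u hu hadj h
      exact hk' (mem_image.2 ⟨u, mem_filter.2 ⟨hu, hadj⟩, h⟩)
    refine ⟨Function.update c v k, ?_, ?_⟩
    · intro u hu
      by_cases huv : u = v
      · rw [huv, Function.update_self]
        simp at hk
        omega
      · rw [Function.update_of_ne huv]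
        exact h1 u ((mem_insert.1 hu).resolve_left huv)
    · intro u hu w hw hadj huw
      by_cases huv : u = v
      · have hwv : w ≠ v := fun h => huw (huv.trans h.symm)
        rw [huv, Function.update_self, Function.update_of_ne hwv]
        rw [huv] at hadj
        exact (hcol w ((mem_insert.1 hw).resolve_left hwv) hadj).symm
      · by_cases hwv : w = v
        · rw [hwv, Function.update_self, Function.update_of_ne huv]
          rw [hwv] at hadj
          exact hcol u ((mem_insert.1 hu).resolve_left huv) (hs _ _ hadj)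
        · rw [Function.update_of_ne huv, Function.update_of_ne hwv]
          exact h2 u ((mem_insert.1 hu).resolve_left huv) w
            ((mem_insert.1 hw).resolve_left hwv) hadj huw

theorem sort3 {α : Type*} [DecidableEq α] (c : α → ℕ) (e : Finset α) (he : e.card = 3)
    (hc : ∀ x ∈ e, ∀ y ∈ e, x ≠ y → c x ≠ c y) :
    ∃ u v w, e = {u, v, w} ∧ c u < c v ∧ c v < c w := by
  obtain ⟨x, y, z, hxy, hxz, hyz, rfl⟩ := card_eq_three.1 he
  have h1 := hc x (by simp) y (by simp) hxy
  have h2 := hc x (by simp) z (by simp) hxz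
  have h3 := hc y (by simp) z (by simp) hyz
  rcases lt_or_gt_of_ne h1 with h1 | h1 <;> rcases lt_or_gt_of_ne h2 with h2 | h2 <;>
    rcases lt_or_gt_of_ne h3 with h3 | h3
  · exact ⟨x, y, z, rfl, h1, h3⟩
  · exact ⟨x, z, y, by rw [pair_comm y z], h2, h3⟩
  · omega
  · exact ⟨z, x, y, by rw [pair_comm y z, insert_comm x z], h2, h1⟩
  · exact ⟨y, x, z, by rw [insert_comm], h1, h2⟩
  · omega
  · exact ⟨y, z, x, by rw [insert_comm x y, pair_comm x z], h3, h2⟩
  · exact ⟨z, y, x, by rw [insert_comm x y, pair_comm x z, insert_comm y z], h3, h1⟩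

variable {V : Type*} [LinearOrder V]

theorem R_cases (red : Finset V → Prop) (B : Finset V)
    (key : ∀ x ∈ B, ∀ y ∈ B, ∀ z ∈ B, x < y → y < z → ¬ R red x y z) :
    ∀ x ∈ B, ∀ y ∈ B, ∀ z ∈ B, x ≠ y → z ≠ x → z ≠ y → ¬ R red x y z := by
  intro x hx y hy z hz hxy hzx hzy
  rcases lt_or_gt_of_ne hxy with h1 | h1 <;> rcases lt_or_gt_of_ne hzx with h2 | h2 <;>
    rcases lt_or_gt_of_ne hzy with h3 | h3
  · rw [← R_rot]
    exact key z hz x hx y hy h2 h1
  · exact absurd (h2.trans h1) h3.asymm
  · rw [R_comm23]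
    exact key x hx z hz y hy h2 h3
  · exact key x hx y hy z hz h1 h3
  · rw [R_rot, R_comm12, ]
    exact key z hz y hy x hx h3 h1
  · rw [R_rot]
    exact key y hy z hz x hx h3 h2
  · exact absurd (h3.trans h1) h2.asymm
  · rw [R_comm12]
    exact key y hy x hx z hz h1 h2

theorem base {s : ℕ} (red : Finset V → Prop) (F : Finset (Finset (Fin s)))
    (hF : ∀ e ∈ F, e.card = 3) (I : Finset (Fin s)) (Δ : ℕ)
    (hdeg : ∀ v ∈ I, (F.filter (fun e => v ∈ e ∧ e ⊆ I)).card ≤ Δ) {n : ℕ} (hn : 1 ≤ n) :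
    ∀ Z, Fn red n (Wf n (max Δ 1) (s + 1) (2 * Δ)) 0 Z → Blue red n Z ∨
      ∃ φ : Fin s → V, Set.InjOn φ I ∧ (∀ v ∈ I, φ v ∈ Z) ∧
        ∀ e ∈ F, e ⊆ I → red (e.image φ) := by
  classical
  rintro Z (h | ⟨T, hT, hM, hH⟩)
  · exact Or.inl h
  set χ : V → V → Prop := fun x y => ∀ z ∈ T, y < z → R red x y z with hχ
  by_cases hfree : ∀ B ⊆ T, B.card = n → ∃ x ∈ B, ∃ y ∈ B, x < y ∧ χ x y
  swap
  · left
    push Not at hfree
    obtain ⟨B, hB, hBc, hB'⟩ := hfree
    refine ⟨B, hB.trans hT, hBc, R_cases red B ?_⟩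
    intro x hx y hy z hz hxy hyz hR
    have h1 := hB' x hx y hy hxy
    rw [hχ] at h1
    push Not at h1
    obtain ⟨z₀, hz₀, hyz₀, h2⟩ := h1
    exact h2 (hH x (hB hx) y (hB hy) hxy z (mem_union_left _ (hB hz)) hyz z₀
      (mem_union_left _ hz₀) hyz₀ hR)
  right
  -- rainbow colouring
  obtain ⟨c, hc1, hc2⟩ := greedy_col (fun x y : Fin s => ∃ e ∈ F, e ⊆ I ∧ x ∈ e ∧ y ∈ e)
    (by rintro x y ⟨e, he, h1, h2, h3⟩; exact ⟨e, he, h1, h3, h2⟩) (2 * Δ) I (by
      intro v hv B hB hB' hvB
      have h1 : B ⊆ (F.filter (fun e => v ∈ e ∧ e ⊆ I)).biUnion (fun e => e.erase v) := by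
        intro u hu
        obtain ⟨e, he, heI, hve, hue⟩ := hB' u hu
        refine mem_biUnion.2 ⟨e, mem_filter.2 ⟨he, hve, heI⟩, mem_erase.2 ⟨?_, hue⟩⟩
        rintro rfl
        exact hvB hu
      calc B.card ≤ _ := card_le_card h1
        _ ≤ (F.filter (fun e => v ∈ e ∧ e ⊆ I)).card * 2 := by
            apply card_biUnion_le_card_mul
            intro e he
            rw [mem_filter] at he
            rw [card_erase_of_mem he.2.1, hF e he.1]
        _ ≤ Δ * 2 := Nat.mul_le_mul_right _ (hdeg v hv)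
        _ = 2 * Δ := by ring)
  have hrain : ∀ e ∈ F, e ⊆ I → ∀ x ∈ e, ∀ y ∈ e, x ≠ y → c x ≠ c y := by
    intro e he heI x hx y hy hxy
    exact hc2 x (heI hx) y (heI hy) ⟨e, he, heI, hx, hy⟩ hxy
  set Hr : Fin s → Fin s → Prop := fun u v => ∃ e ∈ F, e ⊆ I ∧ u ∈ e ∧ v ∈ e ∧
    ∀ x ∈ e, ¬ (c u < c x ∧ c x < c v) with hHr
  obtain ⟨φ, h1, h2, h3⟩ := emb χ (D := max Δ 1) (h := s + 1) hn (le_max_right _ _) (by omega) c Hr
    (2 * Δ) T hfree hM I hc1 (by
      intro v hv B hB hB'
      set g : Fin s → Finset (Fin s) := fun u => if h : Hr u v then h.choose else ∅ with hg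
      have hg' : ∀ u ∈ B, g u ∈ F ∧ g u ⊆ I ∧ u ∈ g u ∧ v ∈ g u ∧
          ∀ x ∈ g u, ¬ (c u < c x ∧ c x < c v) := by
        intro u hu
        have h := (hB' u hu).2
        have hgu : g u = h.choose := by
          simp only [hg]
          rw [dif_pos h]
        rw [hgu]
        exact h.choose_spec
      have hle : B.card ≤ (F.filter (fun e => v ∈ e ∧ e ⊆ I)).card := by
        apply card_le_card_of_injOn g
        · intro u hu
          obtain ⟨h1, h2, h3, h4, h5⟩ := hg' u hu
          exact mem_coe.2 (mem_filter.2 ⟨h1, h4, h2⟩)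
        · intro u hu u' hu' huu'
          obtain ⟨h1, h2, h3, h4, h5⟩ := hg' u hu
          obtain ⟨k1, k2, k3, k4, k5⟩ := hg' u' hu'
          by_contra hne
          have hcne := hrain (g u) h1 h2 u h3 u' (huu' ▸ k3) hne
          rcases lt_or_gt_of_ne hcne with h | h
          · exact h5 u' (huu' ▸ k3) ⟨h, (hB' u' hu').1⟩
          · exact k5 u (huu' ▸ h3) ⟨h, (hB' u hu).1⟩
      exact (hle.trans (hdeg v hv)).trans (le_max_left _ _))
    (by
      have := card_le_univ I
      simp at this
      omega)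
  refine ⟨φ, h1, fun v hv => hT (h2 v hv), ?_⟩
  intro e he heI
  obtain ⟨u, v, w, hew, huv, hvw⟩ := sort3 c e (hF e he) (hrain e he heI)
  have hu : u ∈ e := by rw [hew]; simp
  have hv : v ∈ e := by rw [hew]; simp
  have hw : w ∈ e := by rw [hew]; simp
  have hmem : ∀ x ∈ e, x = u ∨ x = v ∨ x = w := by
    intro x hx
    rw [hew] at hx
    simpa using hx
  have hHuv : Hr u v := by
    refine ⟨e, he, heI, hu, hv, ?_⟩
    intro x hx
    rcases hmem x hx with rfl | rfl | rfl <;> omega
  have hHvw : Hr v w := by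
    refine ⟨e, he, heI, hv, hw, ?_⟩
    intro x hx
    rcases hmem x hx with rfl | rfl | rfl <;> omega
  have h4 := h3 u (heI hu) v (heI hv) huv hHuv
  have h5 := h3 v (heI hv) w (heI hw) hvw hHvw
  have h6 : R red (φ u) (φ v) (φ w) := h4.2 (φ w) (h2 w (heI hw)) h5.1
  have h7 : e.image φ = {φ u, φ v, φ w} := by
    rw [hew]
    simp [image_insert]
  rw [h7]
  exact h6

theorem assemble {s : ℕ} (red : Finset V → Prop) (F : Finset (Finset (Fin s)))
    (hF : ∀ e ∈ F, e.card = 3) (I : Finset (Fin s)) {n M : ℕ}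
    (HB : ∀ Z, Fn red n M 0 Z → Blue red n Z ∨
      ∃ φ : Fin s → V, Set.InjOn φ I ∧ (∀ v ∈ I, φ v ∈ Z) ∧
        ∀ e ∈ F, e ⊆ I → red (e.image φ)) (A : Finset (Fin s)) :
    Disjoint A I → ∀ Z, Fn red n M A.card Z → Blue red n Z ∨
      ∃ φ : Fin s → V, Set.InjOn φ ↑(A ∪ I) ∧ (∀ v ∈ A ∪ I, φ v ∈ Z) ∧
        ∀ e ∈ F, e ⊆ A ∪ I → red (e.image φ) := by
  classical
  induction A using Finset.induction_on with
  | empty =>
    intro _ Z hZ
    rw [card_empty] at hZ
    rcases HB Z hZ with h | ⟨φ, h1, h2, h3⟩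
    · exact Or.inl h
    · refine Or.inr ⟨φ, ?_, ?_, ?_⟩
      · simpa using h1
      · simpa using h2
      · simpa using h3
  | insert a A ha ih =>
    intro hdis Z hZ
    rw [disjoint_insert_left] at hdis
    rw [card_insert_of_notMem ha] at hZ
    rcases hZ with h | ⟨u, hu, Z', hZ', huZ', hR, hFn⟩
    · exact Or.inl h
    rcases ih hdis.2 Z' hFn with h | ⟨φ, h1, h2, h3⟩
    · exact Or.inl (h.mono hZ')
    right
    have haAI : a ∉ A ∪ I := by
      intro h
      rcases mem_union.1 h with h | h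
      · exact ha h
      · exact hdis.1 h
    have hne : ∀ w ∈ A ∪ I, w ≠ a := fun w hw h => haAI (h ▸ hw)
    have hins : insert a A ∪ I = insert a (A ∪ I) := insert_union _ _ _
    rw [hins]
    refine ⟨Function.update φ a u, ?_, ?_, ?_⟩
    · intro x hx y hy hxy
      rcases mem_insert.1 (mem_coe.1 hx) with hx' | hx' <;>
        rcases mem_insert.1 (mem_coe.1 hy) with hy' | hy'
      · rw [hx', hy']
      · exfalso
        rw [hx', Function.update_self, Function.update_of_ne (hne y hy')] at hxy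
        exact huZ' (hxy ▸ h2 y hy')
      · exfalso
        rw [hy', Function.update_self, Function.update_of_ne (hne x hx')] at hxy
        exact huZ' (hxy ▸ h2 x hx')
      · rw [Function.update_of_ne (hne x hx'), Function.update_of_ne (hne y hy')] at hxy
        exact h1 hx' hy' hxy
    · intro v hv
      rcases mem_insert.1 hv with rfl | hv
      · rw [Function.update_self]
        exact hu
      · rw [Function.update_of_ne (hne v hv)]
        exact hZ' (h2 v hv)
    · intro e he heI
      by_cases hae : a ∈ e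
      · have h4 : (e.erase a).card = 2 := by
          rw [card_erase_of_mem hae, hF e he]
        obtain ⟨y, z, hyz, hyz'⟩ := card_eq_two.1 h4
        have hy : y ∈ e.erase a := by rw [hyz']; simp
        have hz : z ∈ e.erase a := by rw [hyz']; simp
        have hyAI : y ∈ A ∪ I :=
          (mem_insert.1 (heI (mem_of_mem_erase hy))).resolve_left (ne_of_mem_erase hy)
        have hzAI : z ∈ A ∪ I :=
          (mem_insert.1 (heI (mem_of_mem_erase hz))).resolve_left (ne_of_mem_erase hz)
        have he' : e = {a, y, z} := by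
          rw [← insert_erase hae, hyz']
        have himg : e.image (Function.update φ a u) = {u, φ y, φ z} := by
          rw [he']
          simp [image_insert, Function.update_of_ne (hne y hyAI), Function.update_of_ne (hne z hzAI)]
        rw [himg]
        exact hR (φ y) (h2 y hyAI) (φ z) (h2 z hzAI) (fun h => hyz (h1 hyAI hzAI h))
      · have heAI : e ⊆ A ∪ I := by
          intro x hx
          exact (mem_insert.1 (heI hx)).resolve_left (fun h => hae (h ▸ hx))
        have himg : e.image (Function.update φ a u) = e.image φ := by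
          apply image_congr
          intro x hx
          exact Function.update_of_ne (hne x (heAI hx)) _ _
        rw [himg]
        exact h3 e he heAI

end Pool.Agent.LinUp54
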