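import Mathlib

/-!
Online colouring with a nested family of blue chains: a colouring of the triples of a large
linearly ordered set contains either a blue `n`-set or `a` nested red vertices above a
homogeneous bucket with `M` vertices.
-/

namespace Pool.Agent.LinUp54

open Finset

variable {V : Type*} [LinearOrder V]

/-- The triple `x, y, z` is red. -/
def R (red : Finset V → Prop) (x y z : V) : Prop := red {x, y, z}

theorem R_comm23 (red : Finset V → Prop) (x y z : V) : R red x y z ↔ R red x z y := by
  unfold R
  rw [Finset.pair_comm y z]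

theorem R_comm12 (red : Finset V → Prop) (x y z : V) : R red x y z ↔ R red y x z := by
  unfold R
  rw [Finset.insert_comm x y]

theorem R_rot (red : Finset V → Prop) (x y z : V) : R red x y z ↔ R red y z x := by
  rw [R_comm12, R_comm23]

theorem half (S : Finset V) (p : V → Prop) :
    ∃ S' ⊆ S, S.card ≤ 2 * S'.card ∧ ((∀ z ∈ S', p z) ∨ (∀ z ∈ S', ¬ p z)) := by
  classical
  have h := Finset.card_filter_add_card_filter_not (s := S) (fun z => p z)
  rcases le_total (S.filter (fun z => ¬ p z)).card (S.filter (fun z => p z)).card with h1 | h1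
  · exact ⟨S.filter (fun z => p z), Finset.filter_subset _ _, by omega,
      Or.inl (fun z hz => (Finset.mem_filter.1 hz).2)⟩
  · exact ⟨S.filter (fun z => ¬ p z), Finset.filter_subset _ _, by omega,
      Or.inr (fun z hz => (Finset.mem_filter.1 hz).2)⟩

theorem scan (q : V → V → Prop) (U : Finset V) : ∀ S : Finset V,
    ∃ S' ⊆ S, S.card ≤ 2 ^ U.card * S'.card ∧
      ((∃ u ∈ U, ∀ z ∈ S', q u z) ∨ (∀ u ∈ U, ∀ z ∈ S', ¬ q u z)) := by
  classical
  induction U using Finset.induction_on with
  | empty => intro S; exact ⟨S, Subset.refl _, by simp, Or.inr (by simp)⟩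
  | insert u U hu ih =>
    intro S
    obtain ⟨S₁, hS₁, hc₁, h₁⟩ := ih S
    rcases h₁ with ⟨w, hw, hw'⟩ | h₁
    · refine ⟨S₁, hS₁, hc₁.trans ?_, Or.inl ⟨w, mem_insert_of_mem hw, hw'⟩⟩
      rw [card_insert_of_notMem hu]
      exact Nat.mul_le_mul_right _ (Nat.pow_le_pow_right (by norm_num) (by omega))
    · obtain ⟨S₂, hS₂, hc₂, h₂⟩ := half S₁ (q u)
      refine ⟨S₂, hS₂.trans hS₁, ?_, ?_⟩
      · rw [card_insert_of_notMem hu, pow_succ]
        calc S.card ≤ 2 ^ U.card * S₁.card := hc₁
          _ ≤ 2 ^ U.card * (2 * S₂.card) := Nat.mul_le_mul_left _ hc₂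
          _ = 2 ^ U.card * 2 * S₂.card := by ring
      · rcases h₂ with h₂ | h₂
        · exact Or.inl ⟨u, mem_insert_self _ _, h₂⟩
        · right
          intro w hw z hz
          rcases mem_insert.1 hw with rfl | hw
          · exact h₂ z hz
          · exact h₁ w hw z (hS₂ hz)

theorem scan2 (q : V → V → Prop) (U : Finset V) : ∀ S : Finset V,
    ∃ S' ⊆ S, S.card ≤ 2 ^ U.card * S'.card ∧
      ∀ u ∈ U, (∀ z ∈ S', q u z) ∨ (∀ z ∈ S', ¬ q u z) := by
  classical
  induction U using Finset.induction_on with
  | empty => intro S; exact ⟨S, Subset.refl _, by simp, by simp⟩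
  | insert u U hu ih =>
    intro S
    obtain ⟨S₁, hS₁, hc₁, h₁⟩ := ih S
    obtain ⟨S₂, hS₂, hc₂, h₂⟩ := half S₁ (q u)
    refine ⟨S₂, hS₂.trans hS₁, ?_, ?_⟩
    · rw [card_insert_of_notMem hu, pow_succ]
      calc S.card ≤ 2 ^ U.card * S₁.card := hc₁
        _ ≤ 2 ^ U.card * (2 * S₂.card) := Nat.mul_le_mul_left _ hc₂
        _ = 2 ^ U.card * 2 * S₂.card := by ring
    · intro w hw
      rcases mem_insert.1 hw with rfl | hw
      · exact h₂
      · rcases h₁ w hw with h | h
        · exact Or.inl (fun z hz => h z (hS₂ hz))
        · exact Or.inr (fun z hz => h z (hS₂ hz))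

/-- Inside `T`, the colour of `x < y < z` does not depend on `z ∈ T ∪ S`. -/
def Hom (red : Finset V → Prop) (T S : Finset V) : Prop :=
  ∀ x ∈ T, ∀ y ∈ T, x < y → ∀ z ∈ T ∪ S, y < z → ∀ z' ∈ T ∪ S, y < z' →
    R red x y z → R red x y z'

/-- A blue set with `n` vertices inside `Z`. -/
def Blue (red : Finset V → Prop) (n : ℕ) (Z : Finset V) : Prop :=
  ∃ B ⊆ Z, B.card = n ∧
    ∀ x ∈ B, ∀ y ∈ B, ∀ z ∈ B, x ≠ y → z ≠ x → z ≠ y → ¬ R red x y z

theorem Blue.mono {red : Finset V → Prop} {n : ℕ} {Z Z' : Finset V} (h : Blue red n Z)
    (hZ : Z ⊆ Z') : Blue red n Z' := by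
  obtain ⟨B, hB, h1, h2⟩ := h
  exact ⟨B, hB.trans hZ, h1, h2⟩

/-- A state of level `a`: `T` is the set of inserted vertices, `S` the set of future vertices. -/
def P (red : Finset V → Prop) (n M : ℕ) : ℕ → Finset V → Finset V → Prop
  | 0, T, S => T.card < M ∧ Hom red T S
  | a + 1, T, S => ∃ (U : Finset V) (f : V → Finset V), T = U ∪ U.biUnion f ∧ U.card < n ∧
      (∀ x ∈ U, ∀ y ∈ U, x ≠ y → ∀ z ∈ U ∪ S, z ≠ x → z ≠ y → ¬ R red x y z) ∧
      ∀ u ∈ U, u ∉ f u ∧ P red n M a (f u) S ∧
        ∀ y ∈ f u, ∀ z ∈ f u ∪ S, y ≠ z → R red u y z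

/-- A final structure of level `a` inside `Z`. -/
def Fn (red : Finset V → Prop) (n M : ℕ) : ℕ → Finset V → Prop
  | 0, Z => Blue red n Z ∨ ∃ T ⊆ Z, M ≤ T.card ∧ Hom red T ∅
  | a + 1, Z => Blue red n Z ∨ ∃ u ∈ Z, ∃ Z' ⊆ Z, u ∉ Z' ∧
      (∀ y ∈ Z', ∀ z ∈ Z', y ≠ z → R red u y z) ∧ Fn red n M a Z'

theorem Hom.mono {red : Finset V → Prop} {T S S' : Finset V} (h : Hom red T S)
    (hS : S' ⊆ S) : Hom red T S' := by
  intro x hx y hy hxy z hz hyz z' hz' hyz'
  exact h x hx y hy hxy z (union_subset_union_right hS hz) hyz z'
    (union_subset_union_right hS hz') hyz'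

theorem P.mono {red : Finset V → Prop} {n M : ℕ} : ∀ (a : ℕ) (T S S' : Finset V),
    P red n M a T S → S' ⊆ S → P red n M a T S'
  | 0, _, _, _, h, hS => ⟨h.1, h.2.mono hS⟩
  | a + 1, _, S, S', h, hS => by
    obtain ⟨U, f, hT, hU, hb, hr⟩ := h
    refine ⟨U, f, hT, hU, ?_, ?_⟩
    · intro x hx y hy hxy z hz
      exact hb x hx y hy hxy z (union_subset_union_right hS hz)
    · intro u hu
      obtain ⟨h1, h2, h3⟩ := hr u hu
      refine ⟨h1, P.mono a _ _ _ h2 hS, ?_⟩
      intro y hy z hz
      exact h3 y hy z (union_subset_union_right hS hz)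

theorem P_empty (red : Finset V → Prop) {n M : ℕ} (hn : 0 < n) (hM : 0 < M) :
    ∀ (a : ℕ) (S : Finset V), P red n M a ∅ S
  | 0, _ => ⟨by simpa using hM, by intro x hx; simp at hx⟩
  | a + 1, _ => ⟨∅, fun _ => ∅, by simp, by simpa using hn, by simp, by simp⟩

/-- Bound for the number of vertices of a state of level `a`. -/
def sz (n M : ℕ) : ℕ → ℕ
  | 0 => M
  | a + 1 => n * (1 + sz n M a)

theorem P_card {red : Finset V → Prop} {n M : ℕ} : ∀ (a : ℕ) (T S : Finset V),
    P red n M a T S → T.card ≤ sz n M a
  | 0, _, _, h => h.1.le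
  | a + 1, _, S, h => by
    obtain ⟨U, f, hT, hU, -, hr⟩ := h
    have h1 : (U.biUnion f).card ≤ U.card * sz n M a := by
      apply Finset.card_biUnion_le_card_mul
      intro u hu
      exact P_card a _ _ (hr u hu).2.1
    calc _ ≤ U.card + (U.biUnion f).card := by rw [hT]; exact card_union_le _ _
      _ ≤ U.card + U.card * sz n M a := by omega
      _ = U.card * (1 + sz n M a) := by ring
      _ ≤ n * (1 + sz n M a) := Nat.mul_le_mul_right _ hU.le

theorem insert_step (red : Finset V → Prop) {n M : ℕ} (hn : 0 < n) (hM : 0 < M) :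
    ∀ (a : ℕ) (T S : Finset V) (v : V), P red n M a T (insert v S) → (∀ t ∈ T, t < v) →
      (∀ z ∈ S, v < z) → ∃ S' ⊆ S, S.card ≤ 2 ^ (M + a * n) * S'.card ∧
        (P red n M a (insert v T) S' ∨ Fn red n M a (insert v T))
  | 0, T, S, v, h, hTv, hvS => by
    obtain ⟨hTM, hH⟩ := h
    have hvT : v ∉ T := fun h => lt_irrefl _ (hTv v h)
    obtain ⟨S', hS', hc, hq⟩ := scan2 (fun u z => R red u v z) T S
    refine ⟨S', hS', hc.trans ?_, ?_⟩
    · exact Nat.mul_le_mul_right _ (Nat.pow_le_pow_right (by norm_num) (by omega))
    have hH' : Hom red (insert v T) S' := by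
      intro x hx y hy hxy z hz hyz z' hz' hyz' hR
      have hS'' : ∀ w ∈ insert v T ∪ S', v < w → w ∈ S' := by
        intro w hw hvw
        rcases mem_union.1 hw with hw | hw
        · rcases mem_insert.1 hw with rfl | hw
          · exact absurd hvw (lt_irrefl _)
          · exact absurd hvw (hTv w hw).asymm
        · exact hw
      have hsub : ∀ w ∈ insert v T ∪ S', w ∈ T ∪ insert v S := by
        intro w hw
        rcases mem_union.1 hw with hw | hw
        · rcases mem_insert.1 hw with rfl | hw
          · simp
          · simp [hw]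
        · have := hS' hw
          simp [this]
      rcases mem_insert.1 hy with rfl | hyT
      · have hxT : x ∈ T := by
          rcases mem_insert.1 hx with rfl | hx
          · exact absurd hxy (lt_irrefl _)
          · exact hx
        rcases hq x hxT with h | h
        · exact h z' (hS'' z' hz' hyz')
        · exact absurd hR (h z (hS'' z hz hyz))
      · have hxT : x ∈ T := by
          rcases mem_insert.1 hx with rfl | hx
          · exact absurd hxy (hTv y hyT).asymm
          · exact hx
        exact hH x hxT y hyT hxy z (hsub z hz) hyz z' (hsub z' hz') hyz' hR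
    have hcard := card_insert_of_notMem hvT
    by_cases hlt : (insert v T).card < M
    · exact Or.inl ⟨hlt, hH'⟩
    · exact Or.inr (Or.inr ⟨insert v T, Subset.refl _, by omega, hH'.mono (by simp)⟩)
  | a + 1, T, S, v, h, hTv, hvS => by
    classical
    obtain ⟨U, f, hT, hU, hb, hr⟩ := h
    have hvT : v ∉ T := fun h => lt_irrefl _ (hTv v h)
    have hUT : U ⊆ T := by rw [hT]; exact subset_union_left
    have hfT : ∀ u ∈ U, f u ⊆ T := by
      intro u hu
      rw [hT]
      exact (subset_biUnion_of_mem f hu).trans subset_union_right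
    have hvU : v ∉ U := fun h => hvT (hUT h)
    obtain ⟨S₁, hS₁, hc₁, hq⟩ := scan (fun u z => R red u v z) U S
    rcases hq with ⟨u, hu, hq⟩ | hq
    · -- red
      obtain ⟨hu1, hu2, hu3⟩ := hr u hu
      have hvu : v ∉ f u := fun h => hvT (hfT u hu h)
      obtain ⟨S', hS', hc, hres⟩ := insert_step red hn hM a (f u) S₁ v
        (P.mono a _ _ _ hu2 (insert_subset_insert _ hS₁)) (fun t ht => hTv t (hfT u hu ht))
        (fun z hz => hvS z (hS₁ hz))
      have hcard : S.card ≤ 2 ^ (M + (a + 1) * n) * S'.card := by
        calc S.card ≤ 2 ^ U.card * S₁.card := hc₁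
          _ ≤ 2 ^ n * (2 ^ (M + a * n) * S'.card) :=
              Nat.mul_le_mul (Nat.pow_le_pow_right (by norm_num) hU.le) hc
          _ = 2 ^ (M + (a + 1) * n) * S'.card := by
              rw [← mul_assoc, ← pow_add]
              congr 2
              ring
      have hpair : ∀ y ∈ insert v (f u), ∀ z ∈ insert v (f u) ∪ S', y ≠ z → R red u y z := by
        intro y hy z hz hyz
        rcases mem_insert.1 hy with rfl | hy
        · rcases mem_union.1 hz with hz | hz
          · rcases mem_insert.1 hz with rfl | hz
            · exact absurd rfl hyz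
            · rw [R_comm23]
              exact hu3 z hz y (by simp) hyz.symm
          · exact hq z (hS' hz)
        · apply hu3 y hy z _ hyz
          rcases mem_union.1 hz with hz | hz
          · rcases mem_insert.1 hz with rfl | hz
            · simp
            · simp [hz]
          · have := hS₁ (hS' hz)
            simp [this]
      refine ⟨S', hS'.trans hS₁, hcard, ?_⟩
      rcases hres with hres | hres
      · left
        refine ⟨U, Function.update f u (insert v (f u)), ?_, hU, ?_, ?_⟩
        · rw [hT]
          ext w
          simp only [mem_insert, mem_union, mem_biUnion]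
          constructor
          · rintro (rfl | hw | ⟨x, hx, hw⟩)
            · exact Or.inr ⟨u, hu, by simp⟩
            · exact Or.inl hw
            · refine Or.inr ⟨x, hx, ?_⟩
              by_cases hxu : x = u
              · subst hxu
                simp [hw]
              · simp [Function.update_of_ne hxu, hw]
          · rintro (hw | ⟨x, hx, hw⟩)
            · exact Or.inr (Or.inl hw)
            · by_cases hxu : x = u
              · subst hxu
                rw [Function.update_self] at hw
                rcases mem_insert.1 hw with hw | hw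
                · exact Or.inl hw
                · exact Or.inr (Or.inr ⟨x, hx, hw⟩)
              · rw [Function.update_of_ne hxu] at hw
                exact Or.inr (Or.inr ⟨x, hx, hw⟩)
        · intro x hx y hy hxy z hz
          apply hb x hx y hy hxy z
          rcases mem_union.1 hz with hz | hz
          · simp [hz]
          · have := hS₁ (hS' hz)
            simp [this]
        · intro x hx
          by_cases hxu : x = u
          · subst hxu
            rw [Function.update_self]
            refine ⟨?_, hres, hpair⟩
            intro h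
            rcases mem_insert.1 h with h | h
            · exact hvU (h ▸ hx)
            · exact hu1 h
          · rw [Function.update_of_ne hxu]
            obtain ⟨h1, h2, h3⟩ := hr x hx
            refine ⟨h1, P.mono a _ _ _ h2 ?_, ?_⟩
            · intro z hz
              exact mem_insert_of_mem (hS₁ (hS' hz))
            · intro y hy z hz
              apply h3 y hy z
              rcases mem_union.1 hz with hz | hz
              · simp [hz]
              · have := hS₁ (hS' hz)
                simp [this]
      · right
        refine Or.inr ⟨u, mem_insert_of_mem (hUT hu), insert v (f u),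
          insert_subset_insert _ (hfT u hu), ?_, ?_, hres⟩
        · intro h
          rcases mem_insert.1 h with h | h
          · exact hvU (h ▸ hu)
          · exact hu1 h
        · intro y hy z hz
          exact hpair y hy z (mem_union_left _ hz)
    · -- blue
      have hcard : S.card ≤ 2 ^ (M + (a + 1) * n) * S₁.card := by
        refine hc₁.trans (Nat.mul_le_mul_right _ (Nat.pow_le_pow_right (by norm_num) ?_))
        have : n ≤ (a + 1) * n := Nat.le_mul_of_pos_left _ (by omega)
        omega
      have hblue : ∀ x ∈ insert v U, ∀ y ∈ insert v U, x ≠ y → ∀ z ∈ insert v U ∪ S₁,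
          z ≠ x → z ≠ y → ¬ R red x y z := by
        intro x hx y hy hxy z hz hzx hzy
        have key : ∀ w ∈ U, ∀ z ∈ insert v U ∪ S₁, z ≠ w → z ≠ v → ¬ R red w v z := by
          intro w hw z hz hzw hzv
          rcases mem_union.1 hz with hz | hz
          · rcases mem_insert.1 hz with rfl | hz
            · exact absurd rfl hzv
            · have := hb w hw z hz hzw.symm v (by simp)
                (fun h => hvU (h ▸ hw)) (fun h => hvU (h ▸ hz))
              rwa [R_comm23]
          · exact hq w hw z hz
        rcases mem_insert.1 hx with rfl | hxU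
        · rcases mem_insert.1 hy with rfl | hyU
          · exact absurd rfl hxy
          · have := key y hyU z hz hzy hzx
            rwa [R_comm12]
        · rcases mem_insert.1 hy with rfl | hyU
          · exact key x hxU z hz hzx hzy
          · apply hb x hxU y hyU hxy z _ hzx hzy
            rcases mem_union.1 hz with hz | hz
            · rcases mem_insert.1 hz with rfl | hz
              · simp
              · simp [hz]
            · have := hS₁ hz
              simp [this]
      refine ⟨S₁, hS₁, hcard, ?_⟩
      have hcU := card_insert_of_notMem hvU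
      by_cases hlt : (insert v U).card < n
      · left
        refine ⟨insert v U, Function.update f v ∅, ?_, hlt, hblue, ?_⟩
        · rw [hT]
          ext w
          simp only [mem_insert, mem_union, mem_biUnion]
          constructor
          · rintro (rfl | hw | ⟨x, hx, hw⟩)
            · exact Or.inl (Or.inl rfl)
            · exact Or.inl (Or.inr hw)
            · refine Or.inr ⟨x, Or.inr hx, ?_⟩
              have hxv : x ≠ v := fun h => hvU (h ▸ hx)
              rw [Function.update_of_ne hxv]
              exact hw
          · rintro ((hw | hw) | ⟨x, hx, hw⟩)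
            · exact Or.inl hw
            · exact Or.inr (Or.inl hw)
            · by_cases hxv : x = v
              · subst hxv
                simp at hw
              · rw [Function.update_of_ne hxv] at hw
                rcases hx with hx | hx
                · exact absurd hx hxv
                · exact Or.inr (Or.inr ⟨x, hx, hw⟩)
        · intro x hx
          by_cases hxv : x = v
          · subst hxv
            rw [Function.update_self]
            exact ⟨by simp, P_empty red hn hM a _, by simp⟩
          · rw [Function.update_of_ne hxv]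
            have hxU : x ∈ U := (mem_insert.1 hx).resolve_left hxv
            obtain ⟨h1, h2, h3⟩ := hr x hxU
            refine ⟨h1, P.mono a _ _ _ h2 (fun z hz => mem_insert_of_mem (hS₁ hz)), ?_⟩
            intro y hy z hz
            apply h3 y hy z
            rcases mem_union.1 hz with hz | hz
            · simp [hz]
            · have := hS₁ hz
              simp [this]
      · right
        left
        refine ⟨insert v U, insert_subset_insert _ hUT, by omega, ?_⟩
        intro x hx y hy z hz hxy hzx hzy
        exact hblue x hx y hy hxy z (mem_union_left _ hz) hzx hzy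

theorem iter (red : Finset V → Prop) {n M : ℕ} (hn : 0 < n) (hM : 0 < M) (a : ℕ) :
    ∀ (t : ℕ) (T S : Finset V), P red n M a T S → (∀ x ∈ T, ∀ z ∈ S, x < z) →
      2 ^ ((M + a * n + 1) * t) ≤ S.card →
      (∃ Z, Fn red n M a Z) ∨ ∃ T' S', P red n M a T' S' ∧ T'.card = T.card + t := by
  classical
  intro t
  induction t with
  | zero => intro T S h _ _; exact Or.inr ⟨T, S, h, rfl⟩
  | succ t ih =>
    intro T S h hTS hc
    have hS : S.Nonempty := by
      rw [← card_pos]
      exact lt_of_lt_of_le (by positivity) hc
    set v := S.min' hS with hv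
    have hvS : v ∈ S := min'_mem S hS
    have hvT : v ∉ T := fun h => lt_irrefl _ (hTS v h v hvS)
    have hlt : ∀ z ∈ S.erase v, v < z := by
      intro z hz
      exact lt_of_le_of_ne (min'_le S z (mem_of_mem_erase hz)) (ne_of_mem_erase hz).symm
    obtain ⟨S', hS', hc', hres⟩ := insert_step red hn hM a T (S.erase v) v
      (by rw [insert_erase hvS]; exact h) (fun t ht => hTS t ht v hvS) hlt
    rcases hres with hres | hres
    · have hX : 2 ^ ((M + a * n + 1) * t) ≤ S'.card := by
        rw [card_erase_of_mem hvS] at hc'
        have h1 : 2 ^ ((M + a * n + 1) * (t + 1)) =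
            2 ^ (M + a * n) * (2 * 2 ^ ((M + a * n + 1) * t)) := by
          rw [← pow_succ', ← pow_add]
          congr 1
          ring
        rw [h1] at hc
        have h2 : 1 ≤ 2 ^ (M + a * n) * 2 ^ ((M + a * n + 1) * t) := by
          exact Nat.one_le_iff_ne_zero.2 (by positivity)
        have h3 : 2 ^ (M + a * n) * 2 ^ ((M + a * n + 1) * t) ≤ 2 ^ (M + a * n) * S'.card := by
          have h4 : 2 ^ (M + a * n) * (2 * 2 ^ ((M + a * n + 1) * t)) =
              2 ^ (M + a * n) * 2 ^ ((M + a * n + 1) * t) +
                2 ^ (M + a * n) * 2 ^ ((M + a * n + 1) * t) := by ring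
          omega
        exact Nat.le_of_mul_le_mul_left h3 (by positivity)
      have hord : ∀ x ∈ insert v T, ∀ z ∈ S', x < z := by
        intro x hx z hz
        have hz' := hS' hz
        rcases mem_insert.1 hx with h8 | hx
        · rw [h8]
          exact hlt z hz'
        · exact hTS x hx z (mem_of_mem_erase hz')
      rcases ih (insert v T) S' hres hord hX with h5 | ⟨T', S'', h5, h6⟩
      · exact Or.inl h5
      · right
        refine ⟨T', S'', h5, ?_⟩
        have h7 := card_insert_of_notMem hvT
        omega
    · exact Or.inl ⟨_, hres⟩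

theorem exists_final [Fintype V] (red : Finset V → Prop) {n M : ℕ} (hn : 0 < n) (hM : 0 < M)
    (a : ℕ) (hN : 2 ^ ((M + a * n + 1) * (sz n M a + 1)) ≤ Fintype.card V) :
    ∃ Z, Fn red n M a Z := by
  rcases iter red hn hM a (sz n M a + 1) ∅ univ (P_empty red hn hM a _) (by simp)
    (by simpa using hN) with h | ⟨T', S', h1, h2⟩
  · exact h
  · have := P_card a T' S' h1
    simp at h2
    omega

theorem sz_le {n : ℕ} (hn : 1 ≤ n) (M : ℕ) : ∀ a, sz n M a ≤ n ^ a * (M + a)
  | 0 => by simp [sz]
  | a + 1 => by
    have h1 := sz_le hn M a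
    have h2 : 1 ≤ n ^ a := Nat.one_le_pow _ _ hn
    calc sz n M (a + 1) = n * (1 + sz n M a) := rfl
      _ ≤ n * (n ^ a + n ^ a * (M + a)) := Nat.mul_le_mul_left _ (by omega)
      _ = n ^ (a + 1) * (M + (a + 1)) := by ring

end Pool.Agent.LinUp54
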